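import Pool.Agent.Y602.CIS

/-!
# The graphs of the reduction are weakly chordal
-/

set_option autoImplicit false

namespace Pool.Agent.N585.CIS

open Pool.Agent.H622R2 Pool.Agent.H609R2 Pool.Agent.NPC Pool.Agent.Y602

/-- A graph is weakly chordal when neither it nor its complement has an induced cycle with at least
five vertices. -/
def WeaklyChordal {V : Type} (G : SimpleGraph V) : Prop :=
  ∀ n, 5 ≤ n → IsEmpty (SimpleGraph.cycleGraph n ↪g G) ∧ IsEmpty (SimpleGraph.cycleGraph n ↪g Gᶜ)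

theorem WeaklyChordal.of_iso {V W : Type} {G : SimpleGraph V} {H : SimpleGraph W} (e : G ≃g H)
    (h : WeaklyChordal H) : WeaklyChordal G := by
  intro n hn
  obtain ⟨h1, h2⟩ := h n hn
  refine ⟨⟨fun f => h1.false (f.trans e.toEmbedding)⟩, ⟨fun f => h2.false ?_⟩⟩
  refine ⟨⟨fun i => e (f i), fun i j hij => f.injective (e.injective hij)⟩, ?_⟩
  intro i j
  have h3 := f.map_rel_iff (a := i) (b := j)
  rw [← h3]
  change Hᶜ.Adj (e (f i)) (e (f j)) ↔ Gᶜ.Adj (f i) (f j)
  rw [SimpleGraph.compl_adj, SimpleGraph.compl_adj, e.map_adj_iff, ne_eq, e.injective.eq_iff]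

/-- In a long cycle, no vertex dominates another one. -/
theorem cycle_witness {n : ℕ} (hn : 5 ≤ n) (i j : Fin n) (hij : i ≠ j) :
    ∃ x, (SimpleGraph.cycleGraph n).Adj i x ∧ ¬ (SimpleGraph.cycleGraph n).Adj j x ∧ x ≠ j := by
  have hadj : ∀ a b : Fin n, (SimpleGraph.cycleGraph n).Adj a b ↔
      a.1 = b.1 + 1 ∨ b.1 = a.1 + 1 ∨ (a.1 = 0 ∧ b.1 + 1 = n) ∨ (b.1 = 0 ∧ a.1 + 1 = n) := by
    intro a b
    rw [SimpleGraph.cycleGraph_adj']
    have ha := a.2
    have hb := b.2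
    rcases le_or_gt b a with h | h
    · rw [Fin.sub_val_of_le h]
      rcases eq_or_lt_of_le h with h' | h'
      · subst h'
        rw [Fin.sub_val_of_le le_rfl]
        omega
      · rw [Fin.coe_sub_iff_lt.2 h']
        have h1 : b.1 < a.1 := h'
        omega
    · rw [Fin.sub_val_of_le h.le, Fin.coe_sub_iff_lt.2 h]
      have h1 : a.1 < b.1 := h
      omega
  have hi := i.2
  have hj := j.2
  have hij' : i.1 ≠ j.1 := fun h => hij (Fin.ext h)
  -- the two neighbours of `i`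
  let p : Fin n := if h : i.1 + 1 < n then ⟨i.1 + 1, h⟩ else ⟨0, by omega⟩
  let q : Fin n := if h : 0 < i.1 then ⟨i.1 - 1, by omega⟩ else ⟨n - 1, by omega⟩
  have hp : (i.1 + 1 < n ∧ p.1 = i.1 + 1) ∨ (i.1 + 1 = n ∧ p.1 = 0) := by
    by_cases c : i.1 + 1 < n
    · left
      exact ⟨c, by simp only [p]; rw [dif_pos c]⟩
    · right
      exact ⟨by omega, by simp only [p]; rw [dif_neg c]⟩
  have hq : (0 < i.1 ∧ q.1 = i.1 - 1) ∨ (i.1 = 0 ∧ q.1 = n - 1) := by
    by_cases c : 0 < i.1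
    · left
      exact ⟨c, by simp only [q]; rw [dif_pos c]⟩
    · right
      exact ⟨by omega, by simp only [q]; rw [dif_neg c]⟩
  by_cases h : ¬ (SimpleGraph.cycleGraph n).Adj j p ∧ p ≠ j
  · refine ⟨p, ?_, h.1, h.2⟩
    rw [hadj]
    omega
  · refine ⟨q, ?_, ?_, ?_⟩
    · rw [hadj]
      omega
    · intro h'
      apply h
      rw [hadj] at h' ⊢
      rw [ne_eq, Fin.ext_iff]
      omega
    · intro h'
      apply h
      rw [Fin.ext_iff] at h'
      rw [hadj, ne_eq, Fin.ext_iff]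
      omega

/-- A graph in which every set with at least two vertices contains two vertices, one of which
dominates the other one in the set, is weakly chordal. -/
theorem weaklyChordal_of {V : Type} {G : SimpleGraph V}
    (h : ∀ C : Set V, (∀ u ∈ C, ∀ v ∈ C, u ≠ v → ∃ w ∈ C, G.Adj u w ∧ ¬ G.Adj v w ∧ w ≠ v) →
      C.Subsingleton) : WeaklyChordal G := by
  intro n hn
  constructor
  · constructor
    intro f
    have h1 := h (Set.range f) (by
      rintro _ ⟨i, rfl⟩ _ ⟨j, rfl⟩ hij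
      obtain ⟨x, h1, h2, h3⟩ := cycle_witness hn i j (fun e => hij (by rw [e]))
      exact ⟨f x, ⟨x, rfl⟩, f.map_adj_iff.2 h1, fun h => h2 (f.map_adj_iff.1 h),
        fun h => h3 (f.injective h)⟩)
    have h2 := f.injective (h1 ⟨⟨0, by omega⟩, rfl⟩ ⟨⟨1, by omega⟩, rfl⟩)
    simp at h2
  · constructor
    intro f
    have h1 := h (Set.range f) (by
      rintro _ ⟨i, rfl⟩ _ ⟨j, rfl⟩ hij
      have hij' : i ≠ j := fun e => hij (by rw [e])
      obtain ⟨x, h1, h2, h3⟩ := cycle_witness hn j i hij'.symm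
      have g1 := f.map_adj_iff.2 h1
      have g2 : ¬ Gᶜ.Adj (f i) (f x) := fun h => h2 (f.map_adj_iff.1 h)
      rw [SimpleGraph.compl_adj] at g1 g2
      refine ⟨f x, ⟨x, rfl⟩, ?_, g1.2, g1.1.symm⟩
      by_contra hcon
      exact g2 ⟨fun e => h3 (f.injective e).symm, hcon⟩)
    have h2 := f.injective (h1 ⟨⟨0, by omega⟩, rfl⟩ ⟨⟨1, by omega⟩, rfl⟩)
    simp at h2

section

variable {n m : ℕ} {L : ℕ → ℕ → Bool → Bool}

theorem adjP_rl (i j k : ℕ) (a b : Bool) :
    AdjP L (Sum.inr (j, k, b)) (Sum.inl (i, a)) ↔ (i = j ∧ a ≠ b) ∨ L k i a = true :=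
  ⟨fun h => (adjP_lr i j k a b).1 h.symm, fun h => ((adjP_lr i j k a b).2 h).symm⟩

/-- Sets of labels without comparable pairs have at most one element. -/
theorem lab_subsingleton {C : Set Lb} (hC : ∀ x ∈ C, ValidE n m L x)
    (H : ∀ u ∈ C, ∀ v ∈ C, u ≠ v → ∃ w ∈ C, AdjP L u w ∧ ¬ AdjP L v w ∧ w ≠ v) :
    C.Subsingleton := by
  have hval : ∀ i k b, Sum.inr (i, k, b) ∈ C → L k i b = false := fun i k b h => (hC _ h).2.2
  have hnot : ∀ a b : Bool, a ≠ b → b = !a := by decide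
  -- a variable vertex and its copies are not both in `C`
  have s1 : ∀ i k a, Sum.inl (i, a) ∈ C → Sum.inr (i, k, a) ∉ C := by
    intro i k a h1 h2
    obtain ⟨w, hw, w1, w2, w3⟩ := H _ h1 _ h2 (by simp)
    have hv := hval _ _ _ h2
    rcases w with ⟨j, c⟩ | ⟨j, k', c⟩
    · rw [adjP_ll] at w1
      rw [adjP_rl] at w2
      exact w2 (Or.inl ⟨w1.1.symm, w1.2.symm⟩)
    · rw [adjP_lr] at w1
      rw [adjP_rr] at w2
      push Not at w2
      obtain ⟨rfl, w2⟩ := w2
      rcases w1 with w1 | w1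
      · exact w1.2 (w2 w1.1)
      · rw [hv] at w1
        exact Bool.false_ne_true w1
  -- a variable vertex without its partner satisfies all clauses of `C`
  have s2 : ∀ i a, Sum.inl (i, a) ∈ C → Sum.inl (i, !a) ∉ C → ∀ j k b, Sum.inr (j, k, b) ∈ C →
      L k i a = true := by
    intro i a h1 h2 j k b h3
    have key : ∀ j' b', Sum.inr (j', k, b') ∈ C → L k i a = true ∨
        Sum.inr (i, k, !a) ∈ C := by
      intro j' b' h4
      obtain ⟨w, hw, w1, w2, w3⟩ := H _ h1 _ h4 (by simp)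
      rcases w with ⟨l, c⟩ | ⟨l, k', c⟩
      · rw [adjP_ll] at w1
        obtain ⟨rfl, w1⟩ := w1
        rw [hnot _ _ w1] at hw
        exact absurd hw h2
      · rw [adjP_lr] at w1
        rw [adjP_rr] at w2
        push Not at w2
        obtain ⟨rfl, w2⟩ := w2
        rcases w1 with ⟨rfl, w1⟩ | w1
        · rw [hnot _ _ w1] at hw
          exact Or.inr hw
        · exact Or.inl w1
    rcases key _ _ h3 with h | h
    · exact h
    · obtain ⟨w, hw, w1, w2, w3⟩ := H _ h1 _ h (by simp)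
      rcases w with ⟨l, c⟩ | ⟨l, k', c⟩
      · rw [adjP_ll] at w1
        obtain ⟨rfl, w1⟩ := w1
        rw [hnot _ _ w1] at hw
        exact absurd hw h2
      · rw [adjP_lr] at w1
        rw [adjP_rr] at w2
        push Not at w2
        obtain ⟨rfl, w2⟩ := w2
        rcases w1 with ⟨rfl, w1⟩ | w1
        · exfalso
          have e1 := hnot _ _ w1
          exact w3 (by rw [e1])
        · exact w1
  -- the two copies for one clause are not both in `C`
  have s3 : ∀ i k b, Sum.inr (i, k, b) ∈ C → Sum.inr (i, k, !b) ∉ C := by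
    intro i k b h1 h2
    obtain ⟨w, hw, w1, w2, w3⟩ := H _ h1 _ h2 (by simp)
    rcases w with ⟨j, c⟩ | ⟨j, k', c⟩
    · rw [adjP_rl] at w1 w2
      push Not at w2
      rcases w1 with ⟨rfl, w1⟩ | w1
      · have e1 := hnot _ _ w1.symm
        rw [e1] at hw
        exact s1 _ k _ hw h2
      · exact w2.2 w1
    · rw [adjP_rr] at w1 w2
      push Not at w2
      obtain ⟨rfl, w2⟩ := w2
      rcases w1 with w1 | ⟨rfl, w1⟩
      · exact w1 rfl
      · exact w3 (by rw [hnot _ _ w1])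
  -- at most one copy for each clause
  have s4 : ∀ i j k b c, Sum.inr (i, k, b) ∈ C → Sum.inr (j, k, c) ∈ C → i = j ∧ b = c := by
    intro i j k b c h1 h2
    by_cases hij : i = j
    · subst hij
      refine ⟨rfl, ?_⟩
      by_contra hbc
      rw [hnot _ _ hbc] at h2
      exact s3 _ _ _ h1 h2
    · exfalso
      obtain ⟨w, hw, w1, w2, w3⟩ := H _ h1 _ h2 (fun h => hij (by
        rw [Sum.inr.injEq, Prod.mk.injEq] at h
        exact h.1))
      rcases w with ⟨l, e⟩ | ⟨l, k', e⟩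
      · rw [adjP_rl] at w1 w2
        push Not at w2
        rcases w1 with ⟨rfl, w1⟩ | w1
        · have e1 := hnot _ _ w1.symm
          rw [e1] at hw w2
          refine w2.2 (s2 _ _ hw ?_ _ _ _ h1)
          rw [Bool.not_not]
          exact fun h => s1 _ _ _ h h1
        · exact w2.2 w1
      · rw [adjP_rr] at w1 w2
        push Not at w2
        obtain ⟨rfl, w2⟩ := w2
        rcases w1 with w1 | ⟨rfl, w1⟩
        · exact w1 rfl
        · rw [hnot _ _ w1] at hw
          exact s3 _ _ _ h1 hw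
  -- if there is a copy in `C`, then it is not adjacent to variable vertices of `C`
  have s5 : ∀ i k b, Sum.inr (i, k, b) ∈ C → ∀ j a, Sum.inl (j, a) ∈ C → Sum.inl (j, !a) ∈ C := by
    intro i k b h1 j a h2
    by_contra h3
    obtain ⟨w, hw, w1, w2, w3⟩ := H _ h2 _ h1 (by simp)
    rcases w with ⟨l, e⟩ | ⟨l, k', e⟩
    · rw [adjP_ll] at w1
      obtain ⟨rfl, w1⟩ := w1
      rw [hnot _ _ w1] at hw
      exact h3 hw
    · rw [adjP_rr] at w2
      push Not at w2
      obtain ⟨rfl, w2⟩ := w2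
      obtain ⟨e1, e2⟩ := s4 _ _ _ _ _ hw h1
      exact w3 (by rw [e1, e2])
  have s6 : ∀ i k b, Sum.inr (i, k, b) ∈ C → ∀ j a, Sum.inl (j, a) ∈ C →
      ¬ AdjP L (Sum.inr (i, k, b)) (Sum.inl (j, a)) := by
    intro i k b h1 j a h2
    have h3 := s5 _ _ _ h1 _ _ h2
    obtain ⟨w, hw, w1, w2, w3⟩ := H _ h3 _ h1 (by simp)
    rcases w with ⟨l, e⟩ | ⟨l, k', e⟩
    · rw [adjP_ll] at w1
      obtain ⟨rfl, w1⟩ := w1
      have e1 := hnot _ _ w1
      rw [Bool.not_not] at e1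
      rw [e1] at w2
      exact w2
    · rw [adjP_rr] at w2
      push Not at w2
      obtain ⟨rfl, w2⟩ := w2
      obtain ⟨e1, e2⟩ := s4 _ _ _ _ _ hw h1
      exact absurd (by rw [e1, e2]) w3
  by_contra hcon
  rw [Set.not_subsingleton_iff] at hcon
  by_cases hT : ∃ i k b, Sum.inr (i, k, b) ∈ C
  · obtain ⟨i, k, b, h1⟩ := hT
    obtain ⟨v, hv, hne⟩ := hcon.exists_ne (Sum.inr (i, k, b))
    obtain ⟨w, hw, w1, w2, w3⟩ := H _ h1 _ hv hne.symm
    rcases w with ⟨l, e⟩ | ⟨l, k', e⟩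
    · exact s6 _ _ _ h1 _ _ hw w1
    · have hne' : (Sum.inr (i, k, b) : Lb) ≠ Sum.inr (l, k', e) := w1.1
      obtain ⟨x, hx, x1, x2, x3⟩ := H _ h1 _ hw hne'
      rcases x with ⟨l', e'⟩ | ⟨l', k'', e'⟩
      · exact s6 _ _ _ h1 _ _ hx x1
      · rw [adjP_rr] at x2
        push Not at x2
        obtain ⟨rfl, x2⟩ := x2
        obtain ⟨e1, e2⟩ := s4 _ _ _ _ _ hx hw
        exact x3 (by rw [e1, e2])
  · push Not at hT
    obtain ⟨u, hu, v, hv, huv⟩ := hcon
    rcases u with ⟨i, a⟩ | ⟨i, k, b⟩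
    · obtain ⟨w, hw, w1, w2, w3⟩ := H _ hu _ hv huv
      rcases w with ⟨l, e⟩ | ⟨l, k', e⟩
      · have hne' : (Sum.inl (i, a) : Lb) ≠ Sum.inl (l, e) := w1.1
        obtain ⟨x, hx, x1, x2, x3⟩ := H _ hu _ hw hne'
        rcases x with ⟨l', e'⟩ | ⟨l', k'', e'⟩
        · rw [adjP_ll] at w1 x1
          obtain ⟨rfl, w1⟩ := w1
          obtain ⟨rfl, x1⟩ := x1
          exact x3 (by rw [hnot _ _ w1, hnot _ _ x1])
        · exact hT _ _ _ hx
      · exact hT _ _ _ hw
    · exact hT _ _ _ hu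

end

/-- The graph of a formula is weakly chordal. -/
theorem eqRed_weaklyChordal (φ : List C3) : WeaklyChordal (matGraph (eqRed φ)) := by
  refine WeaklyChordal.of_iso (matIso (labE φ) (adjE (satL φ)) (labE_nodup φ)) ?_
  refine weaklyChordal_of fun C hC => ?_
  have h1 : (Subtype.val '' C).Subsingleton := by
    refine lab_subsingleton (n := 3 * φ.length + 1) (m := φ.length) (L := satL φ) ?_ ?_
    · rintro _ ⟨x, hx, rfl⟩
      exact (mem_labE φ _).1 x.2
    · rintro _ ⟨u, hu, rfl⟩ _ ⟨v, hv, rfl⟩ huv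
      obtain ⟨w, hw, w1, w2, w3⟩ := hC u hu v hv (fun e => huv (by rw [e]))
      rw [adj_iff] at w1 w2
      exact ⟨w.1, ⟨w, hw, rfl⟩, w1, w2, fun e => w3 (Subtype.ext e)⟩
  intro x hx y hy
  exact Subtype.ext (h1 ⟨x, hx, rfl⟩ ⟨y, hy, rfl⟩)

end Pool.Agent.N585.CIS
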